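import Pool.Agent.Helper9.FA.Defs
import Pool.Agent.Helper96.TG.R3

/-!
# Definitions for the state sum
-/

namespace Pool.Agent.Helper9.FA

open Finset
open Pool.Agent.Helper9.Kashaev Pool.Agent.Helper9.TG
open Pool.Agent.Helper9 (TB.lam TB.bb TB.sf)

/-- `E` on the first `j` strands -/
noncomputable def Zop (N j : ℕ) (f : List ℕ → ℂ) (w : List ℕ) : ℂ :=
  Eop N (fun u => f (u ++ w.drop j)) (w.take j)

/-- powers of the operators `Zop N j`, `Zop N (j + 1)`, ... -/
noncomputable def Dz (N : ℕ) : ℕ → List ℕ → (List ℕ → ℂ) → List ℕ → ℂ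
  | _, [], f => f
  | j, d :: ds, f => Dz N (j + 1) ds ((Zop N j)^[d] f)

/-- the coordinates of a function; `d` has one entry more than the number of strands -/
noncomputable def DD (N : ℕ) (f : List ℕ → ℂ) (d : List ℕ) : ℂ :=
  Dz N 0 d f (List.replicate (d.length - 1) 0)

/-- the polynomial number `m` in the Casimir operator of the strands `k`, `k + 1` -/
noncomputable def UK (N : ℕ) : ℕ → ℕ → (List ℕ → ℂ) → List ℕ → ℂ
  | 0, m, f, w => nC N m f w
  | _ + 1, _, _, [] => 0
  | k + 1, m, f, x :: w => UK N k m (fun u => f (x :: u)) w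

/-- q-binomial coefficients -/
noncomputable def bn (N a b : ℕ) : ℝ := if b ≤ a then TB.sf N a / (TB.sf N b * TB.sf N (a - b)) else 0

/-- the weight of a vertex -/
noncomputable def Wt (N m uL uR uB uT : ℕ) : ℝ :=
  bn N m uL * bn N m uR * bn N (N - 1 - m) uB * bn N (N - 1 - m) uT

/-- `w` gives the operator of the tangle `D` as a polynomial in the Casimir operator -/
def Coef (N : ℕ) (D : Diagram) (w : ℕ → ℂ) : Prop :=
  ∀ f, Sup N 2 f → ∀ a b : ℕ, RT N D f [a, b] = ∑ m ∈ range N, w m * nC N m f [a, b]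

/-! ### the transfer operators -/

/-- the type of the weights of a vertex; the arguments are `n uL uR uB uT` -/
abbrev Ker (R : Type) := ℕ → ℕ → ℕ → ℕ → ℕ → R

variable {R : Type} [CommSemiring R]

/-- an operator at position `k` of a list -/
def lft (op : (List ℕ → R) → List ℕ → R) : ℕ → (List ℕ → R) → List ℕ → R
  | 0, g, w => op g w
  | _ + 1, _, [] => 0
  | k + 1, g, x :: w => lft op k (fun u => g (x :: u)) w

def cupT (p : ℕ) (g : List ℕ → R) : List ℕ → R
  | a :: e :: b :: r => if e = p then g ((a + b) :: r) else 0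
  | _ => 0

def capT (p : ℕ) (g : List ℕ → R) : List ℕ → R
  | x :: r => ∑ i ∈ range (p + 1 - x), g ((x + i) :: 0 :: (p - i) :: r)
  | _ => 0

def boxT (p : ℕ) (κ : Ker R) (g : List ℕ → R) : List ℕ → R
  | x :: t :: y :: r => if t ≤ p then
      ∑ n ∈ range (p + 1), ∑ uL ∈ range (t + 1), ∑ uR ∈ range (t + 1 - uL),
        κ n uL uR (t - uL - uR) (p - t) * g ((x + uL) :: (t - uL - uR) :: (y + uR) :: r) else 0
  | _ => 0

/-- the transfer operator of a pattern, with one weight for each vertex -/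
def TrP {α : Type} (p : ℕ) : List (Item α) → List (Ker R) → (List ℕ → R) → List ℕ → R
  | [], _, g => g
  | .cup k :: P, κs, g => TrP p P κs (lft (cupT p) k g)
  | .cap k :: P, κs, g => TrP p P κs (lft (capT p) k g)
  | .box k _ :: P, κ :: κs, g => TrP p P κs (lft (boxT p κ) k g)
  | .box _ _ :: _, [], _ => fun _ => 0

/-- the initial function -/
def del0 : List ℕ → R := fun d => if d = [0, 0] then 1 else 0

/-- the number of strands of a pattern -/
def wfP {α : Type} : ℕ → List (Item α) → ℕ → Prop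
  | n, [], m => n = m
  | n, .cup k :: P, m => k ≤ n ∧ wfP (n + 2) P m
  | n, .cap k :: P, m => k + 2 ≤ n ∧ wfP (n - 2) P m
  | n, .box k _ :: P, m => k + 2 ≤ n ∧ wfP n P m

/-- the labels of a pattern -/
def labels {α : Type} : List (Item α) → List α
  | [] => []
  | .cup _ :: P => labels P
  | .cap _ :: P => labels P
  | .box _ a :: P => a :: labels P

/-- integral angle assignments -/
inductive AngN {α : Type} (p : ℕ) : List (Item α) → List ℕ → List (Cor ℕ) → Prop
  | nil : AngN p [] [0, 0] []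
  | cup {P : List (Item α)} {l r : List ℕ} {a b : ℕ} {cs : List (Cor ℕ)}
      (h : AngN p P (l ++ a :: p :: b :: r) cs) :
      AngN p (.cup l.length :: P) (l ++ (a + b) :: r) cs
  | cap {P : List (Item α)} {l r : List ℕ} {x i : ℕ} {cs : List (Cor ℕ)}
      (h : AngN p P (l ++ x :: r) cs) (hi : x + i ≤ p) :
      AngN p (.cap l.length :: P) (l ++ (x + i) :: 0 :: (p - i) :: r) cs
  | box {P : List (Item α)} {l r : List ℕ} {x y t : ℕ} {e : α} {c : Cor ℕ} {cs : List (Cor ℕ)}
      (h : AngN p P (l ++ x :: t :: y :: r) cs) (h1 : c.uL + c.uR + c.uB = t) (h2 : t + c.uT = p)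
      (h3 : c.n ≤ p) :
      AngN p (.box l.length e :: P) (l ++ (x + c.uL) :: c.uB :: (y + c.uR) :: r) (c :: cs)

/-- the product of the weights -/
def prodK : List (Ker R) → List (Cor ℕ) → R
  | κ :: κs, c :: cs => κ c.n c.uL c.uR c.uB c.uT * prodK κs cs
  | [], [] => 1
  | _, _ => 0

/-! ### the weights -/

/-- the phase of the twist region -/
noncomputable def thx (N : ℕ) (a : ℤ) (k : ℕ) : ℂ :=
  Complex.exp (Real.pi * Complex.I * (a * ((k : ℂ) - (N - 1) / 2) ^ 2 / N))

/-- the factor of a twist region with a circle -/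
noncomputable def GG (N : ℕ) (a : ℤ) (n : ℕ) : ℂ :=
  ∑ k ∈ range N, thx N a k * (bn N k n * bn N (N - 1 - k) n : ℝ)

/-- the same without twists -/
noncomputable def G0 (N n : ℕ) : ℝ := ∑ k ∈ range N, bn N k n * bn N (N - 1 - k) n

/-- the weight of a vertex of a fully augmented link -/
noncomputable def kpa (N : ℕ) (a : ℤ) : Ker ℂ := fun n uL uR uB uT =>
  GG N a n * (Wt N (N - 1 - n) uL uR uB uT : ℝ)

/-- the same without twists -/
noncomputable def kp0 (N : ℕ) : Ker ℝ := fun n uL uR uB uT => G0 N n * Wt N (N - 1 - n) uL uR uB uT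

end Pool.Agent.Helper9.FA
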