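import Pool.Agent.Helper9.RTDefs

/-!
# Fully augmented links and their angle assignments

Only definitions.
-/

namespace Pool.Agent.Helper9.FA

open Pool.Agent.Helper9.Kashaev

/-- The pieces of a plane pattern in Morse position: minimum, maximum, and a vertex where the
strands number `k` and `k + 1` meet, with a label; each with the number `k` of strands to its
left. -/
inductive Item (α : Type)
  | cup (k : ℕ)
  | cap (k : ℕ)
  | box (k : ℕ) (a : α)

/-- The diagram of a piece, if `δ k a` is the tangle for a vertex with label `a`. -/
def Item.diagram {α : Type} (δ : ℕ → α → Diagram) : Item α → Diagram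
  | .cup k => [(k, .cup)]
  | .cap k => [(k, .cap)]
  | .box k a => δ k a

/-- `|a|` crossings of the strands number `k`, `k + 1`, positive for `a > 0`, negative for
`a < 0`. -/
def twists (k : ℕ) (a : ℤ) : Diagram :=
  List.replicate a.natAbs (k, if 0 < a then .pos else .neg)

/-- An unknotted circle around the strands number `k` and `k + 1`. -/
def circle (k : ℕ) : Diagram :=
  [(k, .cup), (k + 1, .pos), (k + 2, .pos), (k + 2, .pos), (k + 1, .pos), (k, .cap)]

/-- The fully augmented link of a pattern, cut open at one point: every vertex is replaced by a
twist region with `|a|` crossings and a circle around its two strands. -/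
def falLink (P : List (Item ℤ)) : Diagram :=
  P.flatMap (Item.diagram fun k a => twists k a ++ circle k)

/-- Five numbers at a vertex: the angles `uL, uR, uB, uT` of the corners at the left, right, bottom
and top of the vertex, and a further angle `n`. -/
structure Cor (K : Type) where
  n : K
  uL : K
  uR : K
  uB : K
  uT : K

/-- The conditions at a vertex. -/
structure Cor.Ok (c : Cor ℝ) : Prop where
  L0 : 0 ≤ c.uL
  R0 : 0 ≤ c.uR
  B0 : 0 ≤ c.uB
  T0 : 0 ≤ c.uT
  sum : c.uL + c.uR + c.uB + c.uT = Real.pi
  Bn : c.uB ≤ c.n
  Tn : c.uT ≤ c.n
  Ln : c.uL + c.n ≤ Real.pi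
  Rn : c.uR + c.n ≤ Real.pi
  n2 : 2 * c.n ≤ Real.pi

/-- The strict conditions at a vertex, on the angle `n`.  (The four conditions between `n` and the
`u` are not strict: at the two vertices at the ends of the strand which is cut, two neighbouring
corners lie in the outer regions and have angle `0`, and then `n` is equal to the angle `uB` or `uT`
and `π - n` is equal to the angle `uL` or `uR` of the two other corners.) -/
structure Cor.Strict (c : Cor ℝ) : Prop where
  n0 : 0 < c.n
  n2 : 2 * c.n < Real.pi

/-- `Ang P d cs`: the list `cs` is an angle assignment for the vertices of the pattern `P`, with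
the flow `d` at the bottom of `P`.  The list `d` has one entry for each region between strands at
the bottom of `P`.  Downwards, the entry of a region grows by the angle of each corner; a region
begins below a maximum with `0` and ends above a minimum with `π`; if a region is divided by a
maximum then the two parts share `x + π`; the two outer regions have entry `0`.  So for a whole
pattern (`d = [0, 0]`) the angles at each vertex and the angles in each bounded region have sum
`π`, and the angles in the two outer regions are `0`. -/
inductive Ang {α : Type} : List (Item α) → List ℝ → List (Cor ℝ) → Prop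
  | nil : Ang [] [0, 0] []
  | cup {P : List (Item α)} {l r : List ℝ} {a b : ℝ} {cs : List (Cor ℝ)}
      (h : Ang P (l ++ a :: Real.pi :: b :: r) cs) :
      Ang (.cup l.length :: P) (l ++ (a + b) :: r) cs
  | cap {P : List (Item α)} {l r : List ℝ} {x a b : ℝ} {cs : List (Cor ℝ)}
      (h : Ang P (l ++ x :: r) cs) (ha : x ≤ a) (hb : x ≤ b) (hab : a + b = x + Real.pi) :
      Ang (.cap l.length :: P) (l ++ a :: 0 :: b :: r) cs
  | box {P : List (Item α)} {l r : List ℝ} {x y : ℝ} {e : α} {c : Cor ℝ} {cs : List (Cor ℝ)}
      (h : Ang P (l ++ x :: (Real.pi - c.uT) :: y :: r) cs) (hc : c.Ok) :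
      Ang (.box l.length e :: P) (l ++ (x + c.uL) :: c.uB :: (y + c.uR) :: r) (c :: cs)

/-- The volume of the ideal tetrahedron with dihedral angles `a`, `b`, `π - a - b`. -/
noncomputable def tet (a b : ℝ) : ℝ :=
  lobachevsky a + lobachevsky b + lobachevsky (Real.pi - a - b)

/-- The volume of the twelve ideal tetrahedra at a vertex. -/
noncomputable def Cor.vol (c : Cor ℝ) : ℝ :=
  2 * (2 * tet c.n (Real.pi / 2 - c.n) + tet c.uL (Real.pi - c.n - c.uL) +
    tet c.uR (Real.pi - c.n - c.uR) + tet c.uB (c.n - c.uB) + tet c.uT (c.n - c.uT))

/-- The total volume of an angle assignment. -/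
noncomputable def vol (cs : List (Cor ℝ)) : ℝ := (cs.map Cor.vol).sum

end Pool.Agent.Helper9.FA
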