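import Mathlib
import Pool.Agent.Helper9.FA.ZDefs

/-!
# Local operators, definitions
-/

namespace Pool.Agent.Helper9.FA

open Finset
open Pool.Agent.Helper9.Kashaev Pool.Agent.Helper9.TG
open Pool.Agent.Helper9 (TB.lam TB.bb TB.sf)

variable {M : Type} [AddCommGroup M] [Module ℂ M]

/-- `E` on the prefix and the first strand -/
noncomputable def Z1 (N : ℕ) (x : M →ₗ[ℂ] M) (G : ℕ → ℕ → M) : ℕ → ℕ → M := fun i j =>
  v N ^ (wt N i) • x (G i j) + ecoef N (i + 1) • G (i + 1) j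

/-- `E` on the prefix and both strands -/
noncomputable def Z2 (N : ℕ) (x : M →ₗ[ℂ] M) (G : ℕ → ℕ → M) : ℕ → ℕ → M := fun i j =>
  v N ^ (wt N i + wt N j) • x (G i j) + (ecoef N (i + 1) * v N ^ (wt N j)) • G (i + 1) j +
    ecoef N (j + 1) • G i (j + 1)

/-- the Casimir operator of the two strands -/
noncomputable def CG (N : ℕ) (G : ℕ → ℕ → M) : ℕ → ℕ → M := fun i j =>
  h57A N i j • G i j + h57B N i j • G (i - 1) (j + 1) + h57D N i j • G (i + 1) (j - 1)

/-- the polynomials in the Casimir operator -/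
noncomputable def UG (N : ℕ) : ℕ → (ℕ → ℕ → M) → ℕ → ℕ → M
  | 0, G => G
  | m + 1, G => fun i j => (TB.bb N (m + 1 : ℕ))⁻¹ • (CG N (UG N m G) i j - TB.lam N m • UG N m G i j)

/-- support in `[0, N) × [0, N)` -/
def SG (N : ℕ) (G : ℕ → ℕ → M) : Prop := ∀ i j, ¬ (i < N ∧ j < N) → G i j = 0

end Pool.Agent.Helper9.FA
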