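import Pool.Agent.Helper1.FA.Compare
import Pool.Agent.Helper1.FA.Trans
import Pool.Agent.Helper12.FA.CONVEX
import Pool.Agent.Helper12.FA.EXMAX
import Pool.Agent.Helper36.FA.INTER
import Pool.Agent.Helper36.FA.GAIN
import Pool.Agent.Helper44.FA.Round
import Pool.Agent.Helper64.FA.WASY
import Pool.Agent.Helper74.FA.GAUSS
import Pool.Agent.Helper74.FA.TETC

/-!
# Module LIMIT
-/

namespace Pool.Agent.Helper9.FA

open Finset Filter Topology
open Pool.Agent.Helper9.Kashaev Pool.Agent.Helper9.TG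

/-! ### lists -/

lemma lim_prodK_bound {N : ℕ} (hN : 2 ≤ N) {C : ℝ}
    (hC : ∀ c : Cor ℕ, c.uL + c.uR + c.uB + c.uT = N - 1 → c.uB ≤ c.n → c.uT ≤ c.n →
      c.uL + c.n ≤ N - 1 → c.uR + c.n ≤ N - 1 → 2 * c.n ≤ N - 1 →
      0 < kp0 N c.n c.uL c.uR c.uB c.uT ∧
      |Real.log (kp0 N c.n c.uL c.uR c.uB c.uT) - N / (2 * Real.pi) * (toR (N - 1) c).vol| ≤
        C * (1 + Real.log N)) :
    ∀ (ds : List (Cor ℕ)) (V : ℕ), ds.length = V →
      (∀ c ∈ ds, c.uL + c.uR + c.uB + c.uT = N - 1 ∧ c.uB ≤ c.n ∧ c.uT ≤ c.n ∧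
        c.uL + c.n ≤ N - 1 ∧ c.uR + c.n ≤ N - 1 ∧ 2 * c.n ≤ N - 1) →
      0 < prodK (List.replicate V (kp0 N)) ds ∧
      |Real.log (prodK (List.replicate V (kp0 N)) ds) -
        N / (2 * Real.pi) * vol (ds.map (toR (N - 1)))| ≤ V * (C * (1 + Real.log N)) := by
  intro ds
  induction ds with
  | nil =>
    intro V hV _
    subst hV
    simp [prodK, vol]
  | cons c ds ih =>
    intro V hV h
    obtain ⟨V, rfl⟩ : ∃ V', V = V' + 1 := ⟨V - 1, by simp at hV; omega⟩
    obtain ⟨h1, h2⟩ := ih V (by simpa using hV) (fun c hc => h c (List.mem_cons_of_mem _ hc))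
    obtain ⟨g1, g2, g3, g4, g5, g6⟩ := h c (by simp)
    obtain ⟨k1, k2⟩ := hC c g1 g2 g3 g4 g5 g6
    rw [List.replicate_succ]
    simp only [prodK]
    refine ⟨mul_pos k1 h1, ?_⟩
    rw [Real.log_mul k1.ne' h1.ne']
    have e : vol ((c :: ds).map (toR (N - 1))) =
        (toR (N - 1) c).vol + vol (ds.map (toR (N - 1))) := by
      simp [vol]
    rw [e]
    push_cast
    rw [abs_le] at k2 h2 ⊢
    constructor <;> nlinarith [k2.1, k2.2, h2.1, h2.2]

/-- sums of angles at the vertices of a path -/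
lemma lim_AngN_sum {α : Type} {p : ℕ} {P : List (Item α)} {d : List ℕ} {cs : List (Cor ℕ)}
    (h : AngN p P d cs) : ∀ c ∈ cs, c.uL + c.uR + c.uB + c.uT = p := by
  induction h with
  | nil => simp
  | cup h ih => exact ih
  | cap h hi ih => exact ih
  | box h h1 h2 h3 ih =>
    intro c hc
    rcases List.mem_cons.mp hc with rfl | hc
    · omega
    · exact ih c hc

lemma lim_AngN_length {α : Type} {p : ℕ} {P : List (Item α)} {d : List ℕ} {cs : List (Cor ℕ)}
    (h : AngN p P d cs) : cs.length = (labels P).length := by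
  induction h with
  | nil => simp [labels]
  | cup h ih => simpa [labels] using ih
  | cap h hi ih => simpa [labels] using ih
  | box h h1 h2 h3 ih => simp [labels, ih]

lemma lim_log_N {c : ℝ} (K : ℝ) (hc : 0 < c) : ∀ᶠ N : ℕ in atTop, K * (1 + Real.log N) ≤ c * N := by
  have h1 : Tendsto (fun N : ℕ => K * (1 + Real.log N) / N) atTop (𝓝 0) := by
    have h2 : Tendsto (fun x : ℝ => Real.log x / x) atTop (𝓝 0) := by
      have := Real.isLittleO_log_id_atTop.tendsto_div_nhds_zero
      simpa using this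
    have h3 : Tendsto (fun N : ℕ => Real.log (N : ℝ) / N) atTop (𝓝 0) :=
      h2.comp tendsto_natCast_atTop_atTop
    have h4 : Tendsto (fun N : ℕ => K / (N : ℝ)) atTop (𝓝 0) := by
      have := tendsto_inv_atTop_nhds_zero_nat (𝕜 := ℝ)
      simpa [div_eq_mul_inv] using this.const_mul K
    have h5 := h4.add (h3.const_mul K)
    rw [mul_zero, add_zero] at h5
    refine h5.congr fun N => ?_
    ring
  have h6 := h1.eventually (gt_mem_nhds hc)
  filter_upwards [h6, eventually_gt_atTop 0] with N hN h0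
  have hN0 : (0 : ℝ) < N := by exact_mod_cast h0
  rw [div_lt_iff₀ hN0] at hN
  exact hN.le


/-- all coordinates are close -/
def lim_close (δ : ℝ) (c d : Cor ℝ) : Prop :=
  |c.n - d.n| ≤ δ ∧ |c.uL - d.uL| ≤ δ ∧ |c.uR - d.uR| ≤ δ ∧ |c.uB - d.uB| ≤ δ ∧ |c.uT - d.uT| ≤ δ

lemma lim_vol_cont (c : Cor ℝ) {η : ℝ} (hη : 0 < η) : ∃ δ : ℝ, 0 < δ ∧ ∀ d : Cor ℝ,
    lim_close δ c d → |c.vol - d.vol| ≤ η := by
  have h := Metric.continuous_iff.mp vol_cont (c.n, c.uL, c.uR, c.uB, c.uT) η hη
  obtain ⟨δ, hδ, h⟩ := h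
  refine ⟨δ / 2, by positivity, fun d hd => ?_⟩
  obtain ⟨h1, h2, h3, h4, h5⟩ := hd
  have h6 := h (d.n, d.uL, d.uR, d.uB, d.uT) (by
    simp only [Prod.dist_eq, Real.dist_eq, max_lt_iff]
    refine ⟨?_, ?_, ?_, ?_, ?_⟩ <;> rw [abs_sub_comm] <;> linarith)
  rw [Real.dist_eq, abs_sub_comm] at h6
  exact h6.le

lemma lim_vol_cont_list (cs : List (Cor ℝ)) : ∀ {η : ℝ}, 0 < η → ∃ δ : ℝ, 0 < δ ∧
    ∀ ds : List (Cor ℝ), List.Forall₂ (lim_close δ) cs ds → |vol cs - vol ds| ≤ η := by
  induction cs with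
  | nil =>
    intro η hη
    refine ⟨1, one_pos, fun ds hd => ?_⟩
    cases hd
    simp [hη.le]
  | cons c cs ih =>
    intro η hη
    obtain ⟨δ1, hδ1, h1⟩ := lim_vol_cont c (half_pos hη)
    obtain ⟨δ2, hδ2, h2⟩ := ih (half_pos hη)
    refine ⟨min δ1 δ2, lt_min hδ1 hδ2, fun ds hd => ?_⟩
    cases hd with
    | cons hc hcs =>
      rename_i d ds
      have mono : ∀ {δ δ' : ℝ}, δ ≤ δ' → ∀ c d, lim_close δ c d → lim_close δ' c d := by
        rintro δ δ' h c d ⟨a1, a2, a3, a4, a5⟩
        exact ⟨a1.trans h, a2.trans h, a3.trans h, a4.trans h, a5.trans h⟩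
      have g1 := h1 d (mono (min_le_left _ _) _ _ hc)
      have g2 := h2 ds (hcs.imp (fun c d h => mono (min_le_right _ _) c d h))
      have e1 : vol (c :: cs) = c.vol + vol cs := by simp [vol]
      have e2 : vol (d :: ds) = d.vol + vol ds := by simp [vol]
      rw [e1, e2]
      rw [abs_le] at g1 g2 ⊢
      constructor <;> linarith [g1.1, g1.2, g2.1, g2.2]

/-- mixing with a strict assignment -/
lemma lim_mix_strict {t : ℝ} (ht0 : 0 < t) (ht1 : t ≤ 1) : ∀ {cs ds : List (Cor ℝ)},
    (∀ c ∈ cs, c.Ok) → (∀ c ∈ ds, c.Strict) → ∀ c ∈ List.zipWith (Cor.mix t) cs ds, c.Strict := by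
  intro cs
  induction cs with
  | nil => intro ds _ _ c hc; simp at hc
  | cons c cs ih =>
    intro ds hc hd x hx
    cases ds with
    | nil => simp at hx
    | cons d ds =>
      rw [List.zipWith_cons_cons, List.mem_cons] at hx
      rcases hx with rfl | hx
      · have h1 := hc c (by simp)
        have h2 := hd d (by simp)
        have h1t : 0 ≤ 1 - t := by linarith
        constructor
        · show 0 < (1 - t) * c.n + t * d.n
          have h3 : 0 ≤ c.n := h1.B0.trans h1.Bn
          nlinarith [mul_nonneg h1t h3, mul_pos ht0 h2.n0]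
        · show 2 * ((1 - t) * c.n + t * d.n) < Real.pi
          nlinarith [mul_le_mul_of_nonneg_left h1.n2 h1t, mul_lt_mul_of_pos_left h2.n2 ht0]
      · exact ih (fun c hc' => hc c (List.mem_cons_of_mem _ hc'))
          (fun c hc' => hd c (List.mem_cons_of_mem _ hc')) x hx

lemma lim_mix_vol {t : ℝ} (ht0 : 0 ≤ t) (ht1 : t ≤ 1) : ∀ {cs ds : List (Cor ℝ)},
    cs.length = ds.length → (∀ c ∈ cs, c.Ok) → (∀ c ∈ ds, c.Ok) →
    (1 - t) * vol cs + t * vol ds ≤ vol (List.zipWith (Cor.mix t) cs ds) := by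
  intro cs
  induction cs with
  | nil =>
    intro ds hl _ _
    cases ds with
    | nil => simp [vol]
    | cons d ds => simp at hl
  | cons c cs ih =>
    intro ds hl hc hd
    cases ds with
    | nil => simp at hl
    | cons d ds =>
      have h1 := ih (by simpa using hl) (fun c hc' => hc c (List.mem_cons_of_mem _ hc'))
        (fun c hc' => hd c (List.mem_cons_of_mem _ hc'))
      have h2 := Cor.vol_concave (hc c (by simp)) (hd d (by simp)) ht0 ht1
      have e1 : vol (c :: cs) = c.vol + vol cs := by simp [vol]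
      have e2 : vol (d :: ds) = d.vol + vol ds := by simp [vol]
      have e3 : vol (List.zipWith (Cor.mix t) (c :: cs) (d :: ds)) =
          (Cor.mix t c d).vol + vol (List.zipWith (Cor.mix t) cs ds) := by simp [vol]
      rw [e1, e2, e3]
      linarith

/-- the lower bound without phases -/
lemma lim_lower {α : Type} {P : List (Item α)} {cs cs0 : List (Cor ℝ)} (h : Ang P [0, 0] cs)
    (h0 : Ang P [0, 0] cs0) (hs : ∀ c ∈ cs0, c.Strict) {η : ℝ} (hη : 0 < η) :
    ∀ᶠ N : ℕ in atTop,
      0 < TrP (N - 1) P (List.replicate (labels P).length (kp0 N)) (del0 : List ℕ → ℝ) [0, 0] ∧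
      N / (2 * Real.pi) * (vol cs - η) ≤ Real.log
        (TrP (N - 1) P (List.replicate (labels P).length (kp0 N)) (del0 : List ℕ → ℝ) [0, 0]) := by
  obtain ⟨C, hC0, hC⟩ := kp0_asy
  have hpi := Real.pi_pos
  -- the mixing parameter
  obtain ⟨t, ht0, ht1, ht⟩ : ∃ t : ℝ, 0 < t ∧ t ≤ 1 ∧
      vol cs - η / 4 ≤ (1 - t) * vol cs + t * vol cs0 := by
    set K := |vol cs - vol cs0| + 1 with hK
    have hK0 : 0 < K := by positivity
    refine ⟨min 1 (η / (4 * K)), by positivity, min_le_left _ _, ?_⟩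
    have h1 : min 1 (η / (4 * K)) * K ≤ η / 4 := by
      calc min 1 (η / (4 * K)) * K ≤ η / (4 * K) * K :=
            mul_le_mul_of_nonneg_right (min_le_right _ _) hK0.le
        _ = η / 4 := by field_simp
    have h2 : vol cs - vol cs0 ≤ K := by
      have := le_abs_self (vol cs - vol cs0)
      linarith
    have h3 : 0 ≤ min 1 (η / (4 * K)) := by positivity
    nlinarith [mul_le_mul_of_nonneg_left h2 h3]
  set ct := List.zipWith (Cor.mix t) cs cs0 with hct
  have hl : cs.length = cs0.length := by rw [Ang_length h, Ang_length h0]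
  have hA : Ang P [0, 0] ct := by
    have := Ang_mix h h0 rfl ht0.le ht1
    simpa using this
  have hS : ∀ c ∈ ct, c.Strict := lim_mix_strict ht0 ht1 (Ang_ok h) hs
  have hv : vol cs - η / 4 ≤ vol ct :=
    ht.trans (lim_mix_vol ht0.le ht1 hl (Ang_ok h) (Ang_ok h0))
  obtain ⟨δ, hδ, hcl⟩ := lim_vol_cont_list ct (half_pos (half_pos hη))
  obtain ⟨p0, hp0⟩ := Ang_round hA hS
  set V := (labels P).length with hV
  have e1 : ∀ᶠ N : ℕ in atTop, 4 / ((N : ℝ) - 1) ≤ δ := by
    have h1 : Tendsto (fun N : ℕ => 4 / ((N : ℝ) - 1)) atTop (𝓝 0) := by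
      apply Tendsto.div_atTop tendsto_const_nhds
      exact tendsto_atTop_add_const_right _ _ tendsto_natCast_atTop_atTop
    exact (h1.eventually (gt_mem_nhds hδ)).mono (fun N h => h.le)
  have e2 := lim_log_N (V * C) (show 0 < η / (4 * Real.pi) by positivity)
  filter_upwards [e1, e2, eventually_ge_atTop (p0 + 2)] with N hN1 hN2 hN3
  have hN : 2 ≤ N := by omega
  obtain ⟨ds, hd, hf⟩ := hp0 (N - 1) (by omega)
  have hcast : ((N - 1 : ℕ) : ℝ) = (N : ℝ) - 1 := by
    rw [Nat.cast_sub (by omega)]; norm_num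
  have hsum := lim_AngN_sum hd
  have hlen := lim_AngN_length hd
  have hok : ∀ c ∈ ds, c.uL + c.uR + c.uB + c.uT = N - 1 ∧ c.uB ≤ c.n ∧ c.uT ≤ c.n ∧
      c.uL + c.n ≤ N - 1 ∧ c.uR + c.n ≤ N - 1 ∧ 2 * c.n ≤ N - 1 := by
    intro c hc
    refine ⟨hsum c hc, ?_⟩
    obtain ⟨i, hi, rfl⟩ := List.getElem_of_mem hc
    have := (List.forall₂_iff_get.mp hf).2 i (by rw [(List.forall₂_iff_get.mp hf).1]; exact hi) hi
    exact this.1
  obtain ⟨g1, g2⟩ := lim_prodK_bound hN (hC N hN) ds V hlen hok
  have hnn : ∀ κ ∈ List.replicate V (kp0 N), ∀ n a b c d, 0 ≤ κ n a b c d := by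
    intro κ hκ n a b c d
    rw [List.eq_of_mem_replicate hκ]
    exact kp0_nonneg N n a b c d
  have hdel : ∀ d, (0 : ℝ) ≤ del0 d := by
    intro d; unfold del0; split_ifs <;> norm_num
  have hlow := TrP_lower (p := N - 1) (P := P) (κs := List.replicate V (kp0 N))
    (by simp [hV]) hnn hdel hd
  have hdel1 : (del0 [0, 0] : ℝ) = 1 := by simp [del0]
  rw [hdel1, mul_one] at hlow
  refine ⟨lt_of_lt_of_le g1 hlow, ?_⟩
  have hlog := Real.log_le_log g1 hlow
  refine le_trans ?_ hlog
  -- closeness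
  have hclose : List.Forall₂ (lim_close δ) ct (ds.map (toR (N - 1))) := by
    rw [List.forall₂_map_right_iff]
    refine hf.imp (fun c d hcd => ?_)
    obtain ⟨_, a1, a2, a3, a4, a5⟩ := hcd
    rw [hcast] at a1 a2 a3 a4 a5
    exact ⟨a1.trans hN1, a2.trans hN1, a3.trans hN1, a4.trans hN1, a5.trans hN1⟩
  have hvv := hcl _ hclose
  rw [abs_le] at hvv g2
  have hN0 : (0 : ℝ) < N := by exact_mod_cast (by omega : 0 < N)
  have h5 : vol cs - η / 2 ≤ vol (ds.map (toR (N - 1))) := by linarith [hvv.1, hvv.2]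
  have h6 : (N : ℝ) / (2 * Real.pi) * (vol cs - η / 2) ≤
      N / (2 * Real.pi) * vol (ds.map (toR (N - 1))) := by
    apply mul_le_mul_of_nonneg_left h5 (by positivity)
  have h7 : (N : ℝ) / (2 * Real.pi) * (vol cs - η) =
      N / (2 * Real.pi) * (vol cs - η / 2) - η / (4 * Real.pi) * N := by
    field_simp; ring
  rw [h7]
  have h8 : (V : ℝ) * (C * (1 + Real.log N)) = V * C * (1 + Real.log N) := by ring
  rw [h8] at g2
  linarith [g2.1, g2.2]


/-- products of smaller weights -/
lemma lim_prodK_le {V : ℕ} {N : ℕ} : ∀ (κs : List (Ker ℝ)) (ds : List (Cor ℕ)), κs.length = V →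
    ds.length = V → (∀ κ ∈ κs, ∀ n a b c d, 0 ≤ κ n a b c d ∧ κ n a b c d ≤ kp0 N n a b c d) →
    0 ≤ prodK κs ds ∧ prodK κs ds ≤ prodK (List.replicate V (kp0 N)) ds := by
  induction V with
  | zero =>
    intro κs ds h1 h2 _
    rw [List.length_eq_zero_iff] at h1 h2
    subst h1 h2
    simp [prodK]
  | succ V ih =>
    intro κs ds h1 h2 h
    cases κs with
    | nil => simp at h1
    | cons κ κs =>
      cases ds with
      | nil => simp at h2
      | cons c ds =>
        obtain ⟨g1, g2⟩ := ih κs ds (by simpa using h1) (by simpa using h2)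
          (fun κ hκ => h κ (List.mem_cons_of_mem _ hκ))
        obtain ⟨k1, k2⟩ := h κ (by simp) c.n c.uL c.uR c.uB c.uT
        rw [List.replicate_succ]
        simp only [prodK]
        exact ⟨mul_nonneg k1 g1, mul_le_mul k2 g2 g1 (k1.trans k2)⟩

/-- a nonzero product -/
lemma lim_prodK_ne {R : Type} [CommSemiring R] [NoZeroDivisors R] [Nontrivial R] :
    ∀ (κs : List (Ker R)) (ds : List (Cor ℕ)), prodK κs ds ≠ 0 → ∀ i (h1 : i < κs.length)
      (h2 : i < ds.length), κs[i] ds[i].n ds[i].uL ds[i].uR ds[i].uB ds[i].uT ≠ 0 := by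
  intro κs
  induction κs with
  | nil => intro ds _ i h1; simp at h1
  | cons κ κs ih =>
    intro ds h i h1 h2
    cases ds with
    | nil => simp at h2
    | cons c ds =>
      simp only [prodK] at h
      cases i with
      | zero => simpa using left_ne_zero_of_mul h
      | succ i =>
        simpa using ih ds (right_ne_zero_of_mul h) i (by simpa using h1) (by simpa using h2)

lemma lim_upper {α : Type} {P : List (Item α)} {N : ℕ} (hN : 2 ≤ N) {C : ℝ}
    (hC : ∀ c : Cor ℕ, c.uL + c.uR + c.uB + c.uT = N - 1 → c.uB ≤ c.n → c.uT ≤ c.n →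
      c.uL + c.n ≤ N - 1 → c.uR + c.n ≤ N - 1 → 2 * c.n ≤ N - 1 →
      0 < kp0 N c.n c.uL c.uR c.uB c.uT ∧
      |Real.log (kp0 N c.n c.uL c.uR c.uB c.uT) - N / (2 * Real.pi) * (toR (N - 1) c).vol| ≤
        C * (1 + Real.log N)) {W : ℝ} (κs : List (Ker ℝ)) (hl : (labels P).length = κs.length)
    (hκ : ∀ κ ∈ κs, ∀ n a b c d, 0 ≤ κ n a b c d ∧ κ n a b c d ≤ kp0 N n a b c d)
    (hW : ∀ ds : List (Cor ℕ), AngN (N - 1) P [0, 0] ds → prodK κs ds ≠ 0 →
      Ang P [0, 0] (ds.map (toR (N - 1))) → vol (ds.map (toR (N - 1))) ≤ W) :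
    TrP (N - 1) P κs (del0 : List ℕ → ℝ) [0, 0] ≤ (N : ℝ) ^ (3 * P.length) *
      Real.exp (N / (2 * Real.pi) * W + κs.length * (C * (1 + Real.log N))) := by
  have hN0 : (0 : ℝ) < N := by exact_mod_cast (by omega : 0 < N)
  have hpi := Real.pi_pos
  set V := κs.length with hV
  have h1 : TrP (N - 1) P (κs.map Ker.toC) (del0 : List ℕ → ℂ) [0, 0] =
      ((TrP (N - 1) P κs (del0 : List ℕ → ℝ) [0, 0] : ℝ) : ℂ) := by
    rw [← TrP_ofReal]
    congr 1
    funext d
    unfold del0
    split_ifs <;> simp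
  have h2 := TrP_upper (p := N - 1) (P := P) (κs := κs.map Ker.toC) (by simpa using hl)
    (g := del0) (B := Real.exp (N / (2 * Real.pi) * W + V * (C * (1 + Real.log N))))
    (Real.exp_pos _).le (by
      intro d ds hd
      by_cases hd0 : d = [0, 0]
      · subst hd0
        have e1 : ‖(del0 [0, 0] : ℂ)‖ = 1 := by simp [del0]
        rw [e1, mul_one, prodK_toC, Complex.norm_real, Real.norm_eq_abs]
        have hlen : ds.length = V := by rw [lim_AngN_length hd, hl]
        obtain ⟨g1, g2⟩ := lim_prodK_le κs ds rfl hlen hκ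
        rw [abs_of_nonneg g1]
        by_cases hz : prodK κs ds = 0
        · rw [hz]; exact (Real.exp_pos _).le
        have hsum := lim_AngN_sum hd
        have hok : ∀ c ∈ ds, c.uL + c.uR + c.uB + c.uT = N - 1 ∧ c.uB ≤ c.n ∧ c.uT ≤ c.n ∧
            c.uL + c.n ≤ N - 1 ∧ c.uR + c.n ≤ N - 1 ∧ 2 * c.n ≤ N - 1 := by
          intro c hc
          refine ⟨hsum c hc, ?_⟩
          by_contra hcon
          have hk := kp0_zero hN hcon (uL := c.uL) (uR := c.uR) (uB := c.uB) (uT := c.uT)
          obtain ⟨i, hi, rfl⟩ := List.getElem_of_mem hc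
          have hiκ : i < κs.length := by omega
          have h3 := lim_prodK_ne κs ds hz i hiκ hi
          obtain ⟨k1, k2⟩ := hκ (κs[i]) (List.getElem_mem hiκ) ds[i].n ds[i].uL ds[i].uR ds[i].uB
            ds[i].uT
          rw [hk] at k2
          exact h3 (le_antisymm k2 k1)
        have hA := AngN_toR (by omega) hd (fun c hc => (hok c hc).2)
        have hA' : Ang P [0, 0] (ds.map (toR (N - 1))) := by simpa using hA
        have hw := hW ds hd hz hA'
        obtain ⟨b1, b2⟩ := lim_prodK_bound hN hC ds V hlen hok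
        refine g2.trans ?_
        rw [← Real.exp_log b1]
        apply Real.exp_le_exp.mpr
        rw [abs_le] at b2
        have h6 : (N : ℝ) / (2 * Real.pi) * vol (ds.map (toR (N - 1))) ≤ N / (2 * Real.pi) * W :=
          mul_le_mul_of_nonneg_left hw (by positivity)
        linarith [b2.2]
      · have e1 : ‖(del0 d : ℂ)‖ = 0 := by simp [del0, hd0]
        rw [e1, mul_zero]
        exact (Real.exp_pos _).le)
  rw [h1, Complex.norm_real, Real.norm_eq_abs] at h2
  have h3 : ((N - 1 : ℕ) : ℝ) + 1 = N := by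
    rw [Nat.cast_sub (by omega)]; push_cast; ring
  rw [h3] at h2
  exact (le_abs_self _).trans h2

lemma lim_zip_ge {δ : ℝ} (hδ : 0 ≤ δ) : ∀ (cs ds : List (Cor ℝ)) (i : ℕ) (h1 : i < cs.length)
    (h2 : i < ds.length), δ ≤ |cs[i].n - ds[i].n| →
    δ ^ 2 / 2 ≤ (List.zipWith (fun c d : Cor ℝ => (c.n - d.n) ^ 2 / 2) cs ds).sum := by
  intro cs
  induction cs with
  | nil => intro ds i h1; simp at h1
  | cons c cs ih =>
    intro ds i h1 h2 h
    cases ds with
    | nil => simp at h2
    | cons d ds =>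
      rw [List.zipWith_cons_cons, List.sum_cons]
      have hnn : 0 ≤ (List.zipWith (fun c d : Cor ℝ => (c.n - d.n) ^ 2 / 2) cs ds).sum := by
        apply List.sum_nonneg
        intro x hx
        obtain ⟨j, hj, rfl⟩ := List.getElem_of_mem hx
        rw [List.getElem_zipWith]
        positivity
      cases i with
      | zero =>
        have : δ ^ 2 ≤ (c.n - d.n) ^ 2 := by
          rw [← sq_abs (c.n - d.n)]
          exact pow_le_pow_left₀ hδ (by simpa using h) 2
        linarith
      | succ i =>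
        have := ih ds i (by simpa using h1) (by simpa using h2) (by simpa using h)
        have h3 : 0 ≤ (c.n - d.n) ^ 2 / 2 := by positivity
        linarith


/-- the window of a vertex -/
lemma lim_near {a : ℤ} {r : ℝ → ℂ} (hr1 : ContinuousOn r (Set.Ioo 0 (Real.pi / 2)))
    (hr3 : ∀ α β : ℝ, 0 < α → β < Real.pi / 2 → ∀ ε : ℝ, 0 < ε → ∃ N0 : ℕ, ∀ N : ℕ, N0 ≤ N →
      ∀ n : ℕ, α ≤ Real.pi * n / (N - 1) → Real.pi * n / (N - 1) ≤ β →
      ‖GG N a n - r (Real.pi * n / (N - 1)) * (G0 N n : ℝ)‖ ≤ ε * G0 N n) {τ : ℝ} (h0 : 0 < τ)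
    (h1 : τ < Real.pi / 2) {ε : ℝ} (hε : 0 < ε) : ∃ δ : ℝ, 0 < δ ∧ ∀ᶠ N : ℕ in atTop, ∀ n : ℕ,
      |Real.pi * n / ((N : ℝ) - 1) - τ| ≤ δ → ‖GG N a n - r τ * (G0 N n : ℝ)‖ ≤ ε * G0 N n := by
  have hc : ContinuousAt r τ := hr1.continuousAt (Ioo_mem_nhds h0 h1)
  obtain ⟨δ1, hδ1, h2⟩ := Metric.continuousAt_iff.mp hc (ε / 2) (half_pos hε)
  set δ := min (δ1 / 2) (min (τ / 2) ((Real.pi / 2 - τ) / 2)) with hδ
  have hδ0 : 0 < δ := by
    refine lt_min (by positivity) (lt_min (by positivity) ?_)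
    linarith
  have d1 : δ ≤ δ1 / 2 := min_le_left _ _
  have d2 : δ ≤ τ / 2 := (min_le_right _ _).trans (min_le_left _ _)
  have d3 : δ ≤ (Real.pi / 2 - τ) / 2 := (min_le_right _ _).trans (min_le_right _ _)
  obtain ⟨N0, hN0⟩ := hr3 (τ - δ) (τ + δ) (by linarith) (by linarith) (ε / 2) (half_pos hε)
  refine ⟨δ, hδ0, ?_⟩
  filter_upwards [eventually_ge_atTop N0] with N hN n hn
  rw [abs_le] at hn
  have h3 := hN0 N hN n (by linarith [hn.1]) (by linarith [hn.2])
  have h4 : ‖r (Real.pi * n / ((N : ℝ) - 1)) - r τ‖ ≤ ε / 2 := by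
    have h5 := h2 (x := Real.pi * n / ((N : ℝ) - 1)) (by
      rw [Real.dist_eq, abs_lt]
      constructor <;> linarith [hn.1, hn.2])
    rw [dist_eq_norm] at h5
    exact h5.le
  have hG : 0 ≤ G0 N n := by
    have := GG_le N 0 n
    exact (norm_nonneg _).trans this
  calc ‖GG N a n - r τ * (G0 N n : ℝ)‖
      = ‖(GG N a n - r (Real.pi * n / ((N : ℝ) - 1)) * (G0 N n : ℝ)) +
        (r (Real.pi * n / ((N : ℝ) - 1)) - r τ) * (G0 N n : ℝ)‖ := by ring_nf
    _ ≤ ‖GG N a n - r (Real.pi * n / ((N : ℝ) - 1)) * (G0 N n : ℝ)‖ +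
        ‖(r (Real.pi * n / ((N : ℝ) - 1)) - r τ) * (G0 N n : ℝ)‖ := norm_add_le _ _
    _ ≤ ε / 2 * G0 N n + ε / 2 * G0 N n := by
        apply add_le_add h3
        rw [norm_mul, Complex.norm_real, Real.norm_eq_abs, abs_of_nonneg hG]
        exact mul_le_mul_of_nonneg_right h4 hG
    _ = ε * G0 N n := by ring

/-- exponential decay -/
lemma lim_small {c K L η : ℝ} (hη : 0 < η) (hc : 0 < c) {V0 : ℝ} (hVL : 0 ≤ L) :
    ∀ᶠ N : ℕ in atTop, (N : ℝ) ^ L * Real.exp (N / (2 * Real.pi) * (V0 - 2 * η) +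
      K * (1 + Real.log N)) ≤ c * Real.exp (N / (2 * Real.pi) * (V0 - η)) := by
  have hpi := Real.pi_pos
  have h1 := lim_log_N (|L| + |K| + |Real.log c|) (show 0 < η / (2 * Real.pi) by positivity)
  filter_upwards [h1, eventually_ge_atTop 1] with N hN h1N
  have hN1 : (1 : ℝ) ≤ N := by exact_mod_cast h1N
  have hN0 : (0 : ℝ) < N := by linarith
  have hlog : 0 ≤ Real.log N := Real.log_nonneg hN1
  rw [Real.rpow_def_of_pos hN0, ← Real.exp_add, ← Real.exp_log hc, ← Real.exp_add]
  apply Real.exp_le_exp.mpr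
  have e1 : (N : ℝ) / (2 * Real.pi) * (V0 - 2 * η) =
      N / (2 * Real.pi) * (V0 - η) - η / (2 * Real.pi) * N := by field_simp; ring
  rw [e1]
  have a1 := le_abs_self L
  have a2 := le_abs_self K
  have a3 := neg_abs_le (Real.log c)
  have a4 := abs_nonneg L
  have a5 := abs_nonneg K
  have a6 := abs_nonneg (Real.log c)
  nlinarith [mul_le_mul_of_nonneg_left a1 hlog, mul_le_mul_of_nonneg_left a2
    (by linarith : (0 : ℝ) ≤ 1 + Real.log N), mul_nonneg a6 hlog]


/-- the main statement, with a lower bound -/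
theorem fal_limit' {P : List (Item ℤ)} {cs cs0 : List (Cor ℝ)} (h : Ang P [0, 0] cs)
    (hmax : ∀ ds, Ang P [0, 0] ds → vol ds ≤ vol cs) (h0 : Ang P [0, 0] cs0)
    (hs : ∀ c ∈ cs0, c.Strict) :
    (∀ᶠ N : ℕ in atTop, TrP (N - 1) P ((labels P).map fun a => kpa N a) del0 [0, 0] ≠ 0) ∧
    Tendsto (fun N : ℕ => 2 * Real.pi *
      Real.log ‖TrP (N - 1) P ((labels P).map fun a => kpa N a) del0 [0, 0]‖ / N)
      atTop (𝓝 (vol cs)) := by
  obtain ⟨C, hC0, hC⟩ := kp0_asy
  have hpi := Real.pi_pos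
  set V := (labels P).length with hV
  have hlen : cs.length = V := Ang_length h
  have hint := max_inter h hmax h0 hs
  choose r hr1 hr2 hr3 using GG_ratio
  -- the limits of the ratios
  set rs : List ℂ := List.ofFn (fun i : Fin V =>
    r ((labels P)[i.1]'(by have := i.2; omega)) (cs[i.1]'(by have := i.2; omega)).n) with hrs
  have hrs_len : rs.length = V := by simp [hrs]
  have hrs_get : ∀ i (hi : i < V), rs[i]'(by omega) =
      r ((labels P)[i]'(by omega)) (cs[i]'(by omega)).n := by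
    intro i hi
    simp [hrs]
  have hn : ∀ i (hi : i < V), (cs[i]'(by omega)).n ∈ Set.Ioo 0 (Real.pi / 2) := by
    intro i hi
    obtain ⟨a1, a2⟩ := hint (cs[i]'(by omega)) (List.getElem_mem _)
    exact ⟨a1, by linarith⟩
  have hrs_ne : ∀ x ∈ rs, x ≠ 0 ∧ ‖x‖ ≤ 1 := by
    intro x hx
    obtain ⟨i, hi, rfl⟩ := List.getElem_of_mem hx
    rw [hrs_get i (by omega)]
    exact hr2 _ _ (hn i (by omega))
  set R := ‖rs.prod‖ with hR
  have hR0 : 0 < R := by
    rw [hR, norm_pos_iff]
    exact List.prod_ne_zero (fun hx => (hrs_ne 0 hx).1 rfl)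
  have hR1 : R ≤ 1 := by
    have : ∀ l : List ℂ, (∀ x ∈ l, ‖x‖ ≤ 1) → ‖l.prod‖ ≤ 1 := by
      intro l
      induction l with
      | nil => simp
      | cons x l ih =>
        intro hl
        rw [List.prod_cons, norm_mul]
        exact mul_le_one₀ (hl x (by simp)) (norm_nonneg _)
          (ih (fun y hy => hl y (List.mem_cons_of_mem _ hy)))
    exact this rs (fun x hx => (hrs_ne x hx).2)
  set ε := R / (4 * (V + 1)) with hε
  have hε0 : 0 < ε := by positivity
  have hεV : ε * V ≤ R / 4 := by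
    rw [hε, div_mul_eq_mul_div, div_le_div_iff₀ (by positivity) (by norm_num)]
    nlinarith
  -- the windows
  have hwin : ∀ i : Fin V, ∃ δ : ℝ, 0 < δ ∧ ∀ᶠ N : ℕ in atTop, ∀ n : ℕ,
      |Real.pi * n / ((N : ℝ) - 1) - (cs[i.1]'(by have := i.2; omega)).n| ≤ δ →
      ‖GG N ((labels P)[i.1]'(by have := i.2; omega)) n -
        r ((labels P)[i.1]'(by have := i.2; omega)) (cs[i.1]'(by have := i.2; omega)).n *
          (G0 N n : ℝ)‖ ≤ ε * G0 N n := fun i =>
    lim_near (hr1 _) (hr3 _) (hn i.1 i.2).1 (hn i.1 i.2).2 hε0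
  choose δ hδ0 hδ using hwin
  set near : ℕ → List (ℕ → Bool) := fun N => List.ofFn (fun (i : Fin V) (n : ℕ) =>
    decide (|Real.pi * n / ((N : ℝ) - 1) - (cs[i.1]'(by have := i.2; omega)).n| ≤ δ i)) with hnear
  set J : ℕ → ℝ := fun N =>
    TrP (N - 1) P (List.replicate V (kp0 N)) (del0 : List ℕ → ℝ) [0, 0] with hJ
  set T : ℕ → ℂ := fun N =>
    TrP (N - 1) P ((labels P).map fun a => kpa N a) del0 [0, 0] with hT
  set far : ℕ → ℕ → ℝ := fun N i => TrP (N - 1) P ((List.replicate V (kp0 N)).set i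
    (fun n a b c d => if (near N).getD i (fun _ => true) n then 0 else
      (List.replicate V (kp0 N)).getD i (fun _ _ _ _ _ => 0) n a b c d))
    (del0 : List ℕ → ℝ) [0, 0] with hfar
  have hdel : ∀ d, (0 : ℝ) ≤ del0 d := by
    intro d; unfold del0; split_ifs <;> norm_num
  have hdelC : ∀ d, ((del0 d : ℝ) : ℂ) = del0 d := by
    intro d; unfold del0; split_ifs <;> simp
  -- the comparison
  have hcomp : ∀ᶠ N : ℕ in atTop, ‖T N - rs.prod * (J N : ℂ)‖ ≤
      ε * V * J N + 2 * ∑ i ∈ range V, far N i := by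
    have hall : ∀ᶠ N : ℕ in atTop, ∀ i : Fin V, ∀ n : ℕ,
      |Real.pi * n / ((N : ℝ) - 1) - (cs[i.1]'(by have := i.2; omega)).n| ≤ δ i →
      ‖GG N ((labels P)[i.1]'(by have := i.2; omega)) n -
        r ((labels P)[i.1]'(by have := i.2; omega)) (cs[i.1]'(by have := i.2; omega)).n *
          (G0 N n : ℝ)‖ ≤ ε * G0 N n := Filter.eventually_all.mpr hδ
    filter_upwards [hall] with N hN
    have hWt : ∀ n a b c d, 0 ≤ Wt N (N - 1 - n) a b c d := by
      intro n a b c d
      have hbn : ∀ a b, 0 ≤ bn N a b := by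
        intro a b
        have := kp0_nonneg N
        unfold bn
        split_ifs with hab
        · have hsf : ∀ m, 0 ≤ TB.sf N m := by
            intro m
            by_cases hm : (m : ℝ) < N
            · exact (TB.sf_pos hm).le
            · unfold TB.sf
              rcases Nat.eq_zero_or_pos N with rfl | hN0
              · apply Finset.prod_nonneg
                intro j _
                simp [TB.sb]
              · apply le_of_eq
                symm
                apply Finset.prod_eq_zero (i := N - 1)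
                · rw [mem_range]
                  have : (N : ℝ) ≤ m := not_lt.mp hm
                  have : N ≤ m := by exact_mod_cast this
                  omega
                · rw [Nat.sub_add_cancel hN0]
                  unfold TB.sb
                  rw [div_self (by exact_mod_cast hN0.ne')]
                  simp
          exact div_nonneg (hsf a) (mul_nonneg (hsf b) (hsf _))
        · exact le_rfl
      unfold Wt
      exact mul_nonneg (mul_nonneg (mul_nonneg (hbn _ _) (hbn _ _)) (hbn _ _)) (hbn _ _)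
    have hcm := TrP_compare (p := N - 1) (P := P) (κs := (labels P).map fun a => kpa N a)
      (κ0s := List.replicate V (kp0 N)) (rs := rs) (near := near N) hε0.le
      (del0 : List ℕ → ℝ) hdel (by simp) (by simp [hV]) (by simp [hrs_len, hV])
      (by simp [hnear, hV]) (fun x hx => (hrs_ne x hx).2)
      (by
        intro κ hκ n a b c d
        rw [List.eq_of_mem_replicate hκ]
        exact kp0_nonneg N n a b c d)
      (by
        intro i hi n a b c d
        simp only [List.getElem_map, List.getElem_replicate]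
        unfold kpa kp0
        rw [norm_mul, Complex.norm_real, Real.norm_eq_abs, abs_of_nonneg (hWt _ _ _ _ _)]
        exact mul_le_mul_of_nonneg_right (GG_le N _ n) (hWt _ _ _ _ _))
      (by
        intro i hi n a b c d hni
        have hiV : i < V := by simpa [hV] using hi
        have h3 : |Real.pi * n / ((N : ℝ) - 1) - (cs[i]'(by omega)).n| ≤ δ ⟨i, hiV⟩ := by
          have : (near N)[i]'(by simp [hnear, hiV]) = fun n : ℕ => decide
              (|Real.pi * n / ((N : ℝ) - 1) - (cs[i]'(by omega)).n| ≤ δ ⟨i, hiV⟩) := by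
            simp [hnear]
          rw [this] at hni
          simpa using hni
        have h4 := hN ⟨i, hiV⟩ n h3
        rw [hrs_get i hiV]
        simp only [List.getElem_map, List.getElem_replicate]
        unfold kpa kp0
        have e : GG N (labels P)[i] n * ((Wt N (N - 1 - n) a b c d : ℝ) : ℂ) -
            r ((labels P)[i]) (cs[i]'(by omega)).n *
              ((G0 N n * Wt N (N - 1 - n) a b c d : ℝ) : ℂ) =
            (GG N (labels P)[i] n - r ((labels P)[i]) (cs[i]'(by omega)).n * (G0 N n : ℝ)) *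
              ((Wt N (N - 1 - n) a b c d : ℝ) : ℂ) := by
          push_cast; ring
        rw [e, norm_mul, Complex.norm_real, Real.norm_eq_abs, abs_of_nonneg (hWt _ _ _ _ _)]
        calc _ ≤ ε * G0 N n * Wt N (N - 1 - n) a b c d :=
              mul_le_mul_of_nonneg_right h4 (hWt _ _ _ _ _)
          _ = _ := by ring)
    have e1 : (fun d => (((del0 d : ℝ)) : ℂ)) = (del0 : List ℕ → ℂ) := funext hdelC
    rw [e1, List.length_map] at hcm
    exact hcm
  -- the far parts
  have hfar_small : ∀ i (hi : i < V), ∀ᶠ N : ℕ in atTop, far N i ≤ R / (8 * (V + 1)) * J N := by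
    intro i hi
    set η := δ ⟨i, hi⟩ ^ 2 / 4 with hη
    have hη0 : 0 < η := by have := hδ0 ⟨i, hi⟩; positivity
    have h1 := lim_lower h h0 hs hη0
    have h2 := lim_small (K := V * C) (L := (3 * P.length : ℕ)) (V0 := vol cs) hη0
      (show 0 < R / (8 * (V + 1)) by positivity) (by positivity)
    filter_upwards [h1, h2, eventually_ge_atTop 2] with N hN1 hN2 hN
    obtain ⟨hJ0, hJl⟩ := hN1
    have hN0 : (0 : ℝ) < N := by exact_mod_cast (by omega : 0 < N)
    have hcast : ((N - 1 : ℕ) : ℝ) = (N : ℝ) - 1 := by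
      rw [Nat.cast_sub (by omega)]; norm_num
    have hneari : (near N).getD i (fun _ => true) = fun n : ℕ => decide
        (|Real.pi * n / ((N : ℝ) - 1) - (cs[i]'(by omega)).n| ≤ δ ⟨i, hi⟩) := by
      rw [List.getD_eq_getElem _ _ (by simp [hnear, hi])]
      simp [hnear]
    have hfi : far N i ≤ (N : ℝ) ^ (3 * P.length) *
        Real.exp (N / (2 * Real.pi) * (vol cs - 2 * η) + V * (C * (1 + Real.log N))) := by
      have hu := lim_upper hN (P := P) (hC N hN) (W := vol cs - 2 * η)
        ((List.replicate V (kp0 N)).set i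
          (fun n a b c d => if (near N).getD i (fun _ => true) n then 0 else
          (List.replicate V (kp0 N)).getD i (fun _ _ _ _ _ => 0) n a b c d))
        (by simp [hV])
        (by
          intro κ hκ n a b c d
          rcases List.mem_or_eq_of_mem_set hκ with hκ | rfl
          · rw [List.eq_of_mem_replicate hκ]
            exact ⟨kp0_nonneg N n a b c d, le_rfl⟩
          · have hg : (List.replicate V (kp0 N)).getD i (fun _ _ _ _ _ => 0) = kp0 N := by
              rw [List.getD_eq_getElem _ _ (by rw [List.length_replicate]; exact hi),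
                List.getElem_replicate]
            simp only [hg]
            split_ifs
            · exact ⟨le_rfl, kp0_nonneg N n a b c d⟩
            · exact ⟨kp0_nonneg N n a b c d, le_rfl⟩)
        (by
          intro ds hd hz hA
          have hdl : ds.length = V := lim_AngN_length hd
          have h3 := lim_prodK_ne _ ds hz i (by simp [hi]) (by omega)
          rw [List.getElem_set_self] at h3
          have h4 : ¬ ((near N).getD i (fun _ => true) (ds[i]'(by omega)).n = true) := by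
            intro hcon
            apply h3
            rw [if_pos hcon]
          rw [hneari] at h4
          have h5 : δ ⟨i, hi⟩ ≤ |(cs[i]'(by omega)).n -
              ((ds.map (toR (N - 1)))[i]'(by rw [List.length_map]; omega)).n| := by
            rw [List.getElem_map]
            have : ¬ (|Real.pi * (ds[i]'(by omega)).n / ((N : ℝ) - 1) - (cs[i]'(by omega)).n| ≤
                δ ⟨i, hi⟩) := by simpa using h4
            rw [abs_sub_comm]
            show _ ≤ |Real.pi * (ds[i]'(by omega)).n / ((N - 1 : ℕ) : ℝ) - _|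
            rw [hcast]
            exact (not_le.mp this).le
          have h6 := lim_zip_ge (hδ0 ⟨i, hi⟩).le cs (ds.map (toR (N - 1))) i (by omega)
            (by rw [List.length_map]; omega) h5
          have h7 := max_gap h hmax hA
          have h8 : 2 * η = δ ⟨i, hi⟩ ^ 2 / 2 := by rw [hη]; ring
          linarith)
      rw [List.length_set, List.length_replicate] at hu
      exact hu
    have e2 : (V : ℝ) * (C * (1 + Real.log N)) = V * C * (1 + Real.log N) := by ring
    rw [e2] at hfi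
    rw [Real.rpow_natCast] at hN2
    refine (hfi.trans hN2).trans ?_
    apply mul_le_mul_of_nonneg_left _ (by positivity)
    have hJ0' : 0 < J N := hJ0
    rw [← Real.exp_log hJ0']
    exact Real.exp_le_exp.mpr hJl
  have hsum_small : ∀ᶠ N : ℕ in atTop, 2 * ∑ i ∈ range V, far N i ≤ R / 4 * J N := by
    have hall : ∀ᶠ N : ℕ in atTop, ∀ i : Fin V, far N i.1 ≤ R / (8 * (V + 1)) * J N :=
      Filter.eventually_all.mpr (fun i => hfar_small i.1 i.2)
    have h1 := lim_lower h h0 hs one_pos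
    filter_upwards [hall, h1] with N hN hN1
    have hJ0 : 0 < J N := hN1.1
    calc 2 * ∑ i ∈ range V, far N i ≤ 2 * ∑ i ∈ range V, R / (8 * (V + 1)) * J N := by
          apply mul_le_mul_of_nonneg_left _ (by norm_num)
          exact sum_le_sum (fun i hi => hN ⟨i, mem_range.mp hi⟩)
      _ = R / 4 * J N * (V / (V + 1)) := by
          rw [sum_const, card_range, nsmul_eq_mul]
          field_simp
          ring
      _ ≤ R / 4 * J N * 1 := by
          apply mul_le_mul_of_nonneg_left _ (by positivity)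
          rw [div_le_one (by positivity)]
          linarith
      _ = _ := mul_one _
  -- two sided bounds
  have hmain : ∀ᶠ N : ℕ in atTop, 0 < J N ∧ R / 2 * J N ≤ ‖T N‖ ∧ ‖T N‖ ≤ 2 * J N := by
    have h1 := lim_lower h h0 hs one_pos
    filter_upwards [hcomp, hsum_small, h1] with N h2 h3 h4
    have hJ0 : 0 < J N := h4.1
    have h5 : ‖T N - rs.prod * (J N : ℂ)‖ ≤ R / 2 * J N := by
      refine h2.trans ?_
      have := mul_le_mul_of_nonneg_right hεV hJ0.le
      linarith
    have h6 : ‖rs.prod * (J N : ℂ)‖ = R * J N := by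
      rw [norm_mul, Complex.norm_real, Real.norm_eq_abs, abs_of_pos hJ0]
    have h7 : ‖T N‖ ≤ ‖rs.prod * (J N : ℂ)‖ + ‖T N - rs.prod * (J N : ℂ)‖ := by
      have := norm_add_le (rs.prod * (J N : ℂ)) (T N - rs.prod * (J N : ℂ))
      simpa using this
    have h8 : ‖rs.prod * (J N : ℂ)‖ ≤ ‖T N‖ + ‖T N - rs.prod * (J N : ℂ)‖ := by
      have := norm_sub_le (T N) (T N - rs.prod * (J N : ℂ))
      simpa using this
    rw [h6] at h7 h8
    refine ⟨hJ0, by linarith, ?_⟩
    have := mul_le_mul_of_nonneg_right hR1 hJ0.le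
    linarith
  refine ⟨?_, ?_⟩
  · filter_upwards [hmain] with N hN
    obtain ⟨a1, a2, _⟩ := hN
    have : 0 < ‖T N‖ := lt_of_lt_of_le (by positivity) a2
    exact norm_pos_iff.mp this
  -- the limit
  rw [Metric.tendsto_atTop']
  intro e he
  have h1 := lim_lower h h0 hs (show 0 < e / 4 by positivity)
  have h2 := lim_log_N ((3 * P.length : ℕ) + V * C + |Real.log (R / 2)| + Real.log 2)
    (show 0 < e / (8 * Real.pi) by positivity)
  have h3 : ∀ᶠ N : ℕ in atTop, |2 * Real.pi * Real.log ‖T N‖ / N - vol cs| < e := by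
    filter_upwards [h1, h2, hmain, eventually_ge_atTop 2] with N hN1 hN2 hN3 hN
    obtain ⟨hJ0, hJl⟩ := hN1
    obtain ⟨_, b1, b2⟩ := hN3
    have hN1' : (1 : ℝ) ≤ N := by exact_mod_cast (by omega : 1 ≤ N)
    have hN0 : (0 : ℝ) < N := by linarith
    have hlogN : 0 ≤ Real.log N := Real.log_nonneg hN1'
    have hu := lim_upper hN (P := P) (hC N hN) (W := vol cs) (List.replicate V (kp0 N))
      (by simp [hV])
      (by
        intro κ hκ n a b c d
        rw [List.eq_of_mem_replicate hκ]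
        exact ⟨kp0_nonneg N n a b c d, le_rfl⟩)
      (fun ds _ _ hA => hmax _ hA)
    have hT0 : 0 < ‖T N‖ := lt_of_lt_of_le (by positivity) b1
    have c1 : Real.log (R / 2) + Real.log (J N) ≤ Real.log ‖T N‖ := by
      rw [← Real.log_mul (by positivity) hJ0.ne']
      exact Real.log_le_log (by positivity) b1
    have c2 : Real.log ‖T N‖ ≤ Real.log 2 + Real.log (J N) := by
      rw [← Real.log_mul (by norm_num) hJ0.ne']
      exact Real.log_le_log hT0 b2
    have c3 : Real.log (J N) ≤ (3 * P.length : ℕ) * Real.log N +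
        (N / (2 * Real.pi) * vol cs + V * (C * (1 + Real.log N))) := by
      have := Real.log_le_log hJ0 hu
      rw [Real.log_mul (by positivity) (Real.exp_ne_zero _), Real.log_exp, Real.log_pow] at this
      simpa using this
    have c4 := neg_abs_le (Real.log (R / 2))
    have c5 : 0 ≤ Real.log 2 := Real.log_nonneg (by norm_num)
    have c6 := abs_nonneg (Real.log (R / 2))
    have hV0 : (0 : ℝ) ≤ V := Nat.cast_nonneg _
    have hP0 : (0 : ℝ) ≤ (3 * P.length : ℕ) := Nat.cast_nonneg _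
    have c7 : (0 : ℝ) ≤ V * C := by positivity
    rw [abs_lt]
    constructor
    · have d1 : N / (2 * Real.pi) * (vol cs - e / 4) - e / (8 * Real.pi) * N ≤
          Real.log ‖T N‖ := by
        nlinarith [mul_nonneg c6 hlogN, mul_nonneg c5 hlogN, mul_nonneg c7 hlogN,
          mul_nonneg hP0 hlogN]
      have d2 : vol cs - e / 2 ≤ 2 * Real.pi * Real.log ‖T N‖ / N := by
        rw [le_div_iff₀ hN0]
        have d3 : (vol cs - e / 2) * N = 2 * Real.pi *
            (N / (2 * Real.pi) * (vol cs - e / 4) - e / (8 * Real.pi) * N) := by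
          field_simp; ring
        rw [d3]
        exact mul_le_mul_of_nonneg_left d1 (by positivity)
      linarith
    · have d1 : Real.log ‖T N‖ ≤ N / (2 * Real.pi) * vol cs + e / (8 * Real.pi) * N := by
        nlinarith [mul_nonneg c6 hlogN, mul_nonneg c5 hlogN, mul_nonneg c7 hlogN,
          mul_nonneg hP0 hlogN]
      have d2 : 2 * Real.pi * Real.log ‖T N‖ / N ≤ vol cs + e / 4 := by
        rw [div_le_iff₀ hN0]
        have d3 : (vol cs + e / 4) * N = 2 * Real.pi *
            (N / (2 * Real.pi) * vol cs + e / (8 * Real.pi) * N) := by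
          field_simp; ring
        rw [d3]
        exact mul_le_mul_of_nonneg_left d1 (by positivity)
      linarith
  obtain ⟨N0, hN0⟩ := Filter.eventually_atTop.mp h3
  exact ⟨N0, fun N hN => by rw [Real.dist_eq]; exact hN0 N hN.le⟩

end Pool.Agent.Helper9.FA

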